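import Mathlib
import Pool.Agent.X207.KM5

set_option autoImplicit false

/-!
# MP_38d282_an, Q1: `1/((k+1)^{k+1} k!)` is a multiplier sequence

Idea. Write `k!/(k+1)^{k+1} = ∫_0^∞ (t e^{-t})^k e^{-t} dt`. Let
`Y_N(x) = ∑ (-1)^k C(N,k) x^k / (N^k (k!)^2)`, `N ≥ 120`. The function `W(x) = -(1+1/N) ∫_0^x Y_N`
satisfies `|W(x)| ≤ |W(λ)|` for `0 ≤ x ≤ λ` at every zero `λ` of `Y_N` (energy inequality), and
`W(λ)` has the sign of `Y_N'(λ)`. Writing the integral of `Y_N(λ t e^{1-t}) e^{-t}` by parts with the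
weight `1/(1-t)` shows that it has the sign of `-W(λ)`. Hence the polynomials with coefficients
`(k!/(k+1)^{k+1}) (-1)^k C(N,k) / (N^k (k!)^2)` alternate in sign at the zeros of `Y_N(x/e)` and are
real-rooted; the Schur–Szegő composition theorem gives the multiplier property.
-/

open Polynomial

namespace Pool.Agent.Results.MP_38d282_an.SophomoreSeq

/-- `γ` is a multiplier sequence (of the first kind): for every nonzero real polynomial
`p = ∑ a_k x^k` all of whose complex zeros are real, the polynomial `∑ γ_k a_k x^k` is nonzero and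
has only real zeros. -/
def IsMultiplierSeq (γ : ℕ → ℝ) : Prop :=
  ∀ p : ℝ[X], p ≠ 0 → (∀ z : ℂ, aeval z p = 0 → z.im = 0) →
    ((∑ k ∈ Finset.range (p.natDegree + 1), C (γ k * p.coeff k) * X ^ k : ℝ[X]) ≠ 0 ∧
    ∀ z : ℂ, aeval z (∑ k ∈ Finset.range (p.natDegree + 1), C (γ k * p.coeff k) * X ^ k : ℝ[X]) = 0 →
      z.im = 0)

/-- Q1 has a positive answer: `1/((k+1)^{k+1} k!)` is a multiplier sequence. -/
theorem result :
    IsMultiplierSeq (fun k => 1 / (((k : ℝ) + 1) ^ (k + 1) * (Nat.factorial k : ℝ))) := by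
  intro p hp0 hp
  have hsp := Pool.Agent.H635Z.splits_of_real p hp
  have h := Pool.Agent.X207.KM.multiplier p hsp
  have hne : (∑ k ∈ Finset.range (p.natDegree + 1),
      C (1 / (((k : ℝ) + 1) ^ (k + 1) * (Nat.factorial k : ℝ)) * p.coeff k) * X ^ k : ℝ[X]) ≠ 0 := by
    intro h0
    have h1 := congrArg (fun q : ℝ[X] => q.coeff p.natDegree) h0
    simp only [finsetSum_coeff, coeff_C_mul, coeff_X_pow, mul_ite, mul_one, mul_zero,
      coeff_zero] at h1
    rw [Finset.sum_ite_eq, if_pos (by simp)] at h1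
    have h2 : p.coeff p.natDegree ≠ 0 := by
      rw [coeff_natDegree]; exact leadingCoeff_ne_zero.mpr hp0
    have h5 : (1 : ℝ) / (((p.natDegree : ℝ) + 1) ^ (p.natDegree + 1) *
        (Nat.factorial p.natDegree : ℝ)) ≠ 0 := by positivity
    exact (mul_ne_zero h5 h2) h1
  refine ⟨hne, fun z hz => Pool.Agent.H635Z.real_of_splits _ h hne z hz⟩

end Pool.Agent.Results.MP_38d282_an.SophomoreSeq
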